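import Pool.Agent.Run7.h323.DEop

/-!
Double Ore extensions (Zhang and Zhang, Double Ore extensions, J. Pure Appl. Algebra 212 (2008))
of Ore domains are Ore domains.
-/

namespace Pool.Agent.Results.MP_ef4bac_al.DoubleOreExtension

open Run7.h323

universe u v

variable {K : Type v} {B : Type u} [CommRing K] [Ring B] [Algebra K B]

/-- `B` is a right double extension of its subalgebra `A`, with new variables `y₁, y₂`
(Zhang and Zhang, Definition 1.3 (a)):
* `y₂ y₁ = p₁₂ y₁ y₂ + p₁₁ y₁ ^ 2 + τ₁ y₁ + τ₂ y₂ + τ₀` with scalars `p₁₂, p₁₁` and `τᵢ` in `A`;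
* `B` is a free left `A`-module with basis the `y₁ ^ i * y₂ ^ j`;
* `y₁ A + y₂ A ⊆ A y₁ + A y₂ + A`. -/
structure IsRightDoubleExtension (A : Subalgebra K B) (y₁ y₂ : B) : Prop where
  relation : ∃ (p₁₂ p₁₁ : K) (t₁ t₂ t₀ : A),
    y₂ * y₁ = p₁₂ • (y₁ * y₂) + p₁₁ • (y₁ * y₁) + t₁ * y₁ + t₂ * y₂ + t₀
  basis : Function.Bijective fun c : ℕ × ℕ →₀ A =>
    c.sum fun n a => (a : B) * (y₁ ^ n.1 * y₂ ^ n.2)
  ore₁ : ∀ a : A, ∃ b₁ b₂ b₀ : A, y₁ * (a : B) = b₁ * y₁ + b₂ * y₂ + b₀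
  ore₂ : ∀ a : A, ∃ b₁ b₂ b₀ : A, y₂ * (a : B) = b₁ * y₁ + b₂ * y₂ + b₀

/-- `B` is a left double extension of its subalgebra `A`, with new variables `y₁, y₂`
(Zhang and Zhang, Definition 1.3 (b)):
* `y₁ y₂ = p₁₂ y₂ y₁ + p₁₁ y₁ ^ 2 + y₁ τ₁ + y₂ τ₂ + τ₀` with scalars `p₁₂, p₁₁` and `τᵢ` in `A`;
* `B` is a free right `A`-module with basis the `y₂ ^ i * y₁ ^ j`;
* `A y₁ + A y₂ ⊆ y₁ A + y₂ A + A`. -/
structure IsLeftDoubleExtension (A : Subalgebra K B) (y₁ y₂ : B) : Prop where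
  relation : ∃ (p₁₂ p₁₁ : K) (t₁ t₂ t₀ : A),
    y₁ * y₂ = p₁₂ • (y₂ * y₁) + p₁₁ • (y₁ * y₁) + y₁ * t₁ + y₂ * t₂ + t₀
  basis : Function.Bijective fun c : ℕ × ℕ →₀ A =>
    c.sum fun n a => y₂ ^ n.1 * y₁ ^ n.2 * (a : B)
  ore₁ : ∀ a : A, ∃ b₁ b₂ b₀ : A, (a : B) * y₁ = y₁ * b₁ + y₂ * b₂ + b₀
  ore₂ : ∀ a : A, ∃ b₁ b₂ b₀ : A, (a : B) * y₂ = y₁ * b₁ + y₂ * b₂ + b₀

/-- A double extension: a left and right double extension with the same new variables. -/
structure IsDoubleExtension (A : Subalgebra K B) (y₁ y₂ : B) : Prop where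
  right : IsRightDoubleExtension A y₁ y₂
  left : IsLeftDoubleExtension A y₁ y₂

/-- `R` is a domain and any two left ideals `R a`, `R b` with `a, b ≠ 0` meet nontrivially. -/
def IsLeftOreDomain (R : Type u) [Ring R] : Prop :=
  IsDomain R ∧ ∀ a b : R, b ≠ 0 → ∃ a' b' : R, b' ≠ 0 ∧ b' * a = a' * b

/-- `R` is a domain and any two right ideals `a R`, `b R` with `a, b ≠ 0` meet nontrivially. -/
def IsRightOreDomain (R : Type u) [Ring R] : Prop :=
  IsDomain R ∧ ∀ a b : R, b ≠ 0 → ∃ a' b' : R, b' ≠ 0 ∧ a * b' = b * a'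

theorem exists_DE (A : Subalgebra K B) (y₁ y₂ : B) (h : IsDoubleExtension A y₁ y₂) :
    Nonempty (DE A.toSubring y₁ y₂) := by
  obtain ⟨p, q, t₁, t₂, t₀, hr⟩ := h.right.relation
  obtain ⟨p', q', s₁, s₂, s₀, hl⟩ := h.left.relation
  exact ⟨{
    p := algebraMap K A p
    q := algebraMap K A q
    p' := algebraMap K A p'
    q' := algebraMap K A q'
    p_comm := fun b => Algebra.commutes p b
    q_comm := fun b => Algebra.commutes q b
    p'_comm := fun b => Algebra.commutes p' b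
    q'_comm := fun b => Algebra.commutes q' b
    left_basis := h.right.basis
    right_basis := h.left.basis
    rel := ⟨t₁, t₂, t₀, by rw [hr, Algebra.smul_def, Algebra.smul_def]; rfl⟩
    rel' := ⟨s₁, s₂, s₀, by rw [hl, Algebra.smul_def, Algebra.smul_def]; rfl⟩
    ore_left₁ := h.right.ore₁
    ore_left₂ := h.right.ore₂
    ore_right₁ := h.left.ore₁
    ore_right₂ := h.left.ore₂ }⟩

/-- A double extension of a left (right) Ore domain is a left (right) Ore domain. -/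
theorem result (A : Subalgebra K B) (y₁ y₂ : B) (h : IsDoubleExtension A y₁ y₂) :
    (IsLeftOreDomain A → IsLeftOreDomain B) ∧ (IsRightOreDomain A → IsRightOreDomain B) := by
  obtain ⟨D⟩ := exists_DE A y₁ y₂ h
  constructor
  · rintro ⟨hdom, hore⟩
    have : IsDomain A.toSubring := hdom
    exact D.noZeroDivisors hore
  · rintro ⟨hdom, hore⟩
    have : IsDomain A.toSubring := hdom
    exact D.right_version hore

end Pool.Agent.Results.MP_ef4bac_al.DoubleOreExtension
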